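import Pool.Agent.H92.FQ.Defs

/-!
# MP_70ba79_ag: the complement of the Fermat quartic, basic lemmas
-/

set_option autoImplicit false

namespace Pool.Agent.H92.FQ

open SC Pool.Agent.H27.LV

section Ge

variable {k K : Type} [Field k] [Field K] [Algebra k K] {v : DV k K}

lemma _root_.Pool.Agent.H27.LV.ge.mulLe {s t n : ℤ} {x y : K} (hx : ge v s x) (hy : ge v t y) (h : n ≤ s + t) :
    ge v n (x * y) := (hx.mul hy).mono h

lemma _root_.Pool.Agent.H27.LV.ge.powN {t : ℤ} {x : K} (hx : ge v t x) (n : ℕ) : ge v (n * t) (x ^ n) := by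
  induction n with
  | zero => simpa using ge_one v
  | succ n ih =>
    rw [pow_succ]
    refine ih.mulLe hx ?_
    push_cast
    linarith [(by ring : ((n : ℤ) + 1) * t = n * t + t)]

lemma _root_.Pool.Agent.H27.LV.ge.ofPow {t : ℤ} {x : K} {n : ℕ} (hn : n ≠ 0) (h : ge v (n * t) (x ^ n)) : ge v t x := by
  rcases h with h | h
  · left; exact pow_eq_zero_iff hn |>.1 h
  · right
    rw [v.ord_pow] at h
    have : (0 : ℤ) < n := by exact_mod_cast Nat.pos_of_ne_zero hn
    exact le_of_mul_le_mul_left h this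

lemma _root_.Pool.Agent.H27.LV.ge.ofSq {t : ℤ} {x : K} (h : ge v (2 * t) (x ^ 2)) : ge v t x :=
  ge.ofPow (n := 2) (by norm_num) (by exact_mod_cast h)

lemma ge_iff {t : ℤ} {x : K} (hx : x ≠ 0) : ge v t x ↔ t ≤ v.ord x :=
  ⟨fun h => h.resolve_left hx, Or.inr⟩

lemma _root_.Pool.Agent.H27.LV.ge.cmul {t : ℤ} {x : K} (h : ge v t x) (c : k) : ge v t (algebraMap k K c * x) :=
  (ge_const v c).mulLe h (by omega)

lemma ge_zero_iff {x : K} : ge v 0 x ↔ 0 ≤ v.ord x := by
  constructor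
  · rintro (h | h)
    · rw [h, v.ord_zero]
    · exact h
  · exact Or.inr

lemma charZeroK [CharZero k] : CharZero K :=
  charZero_of_injective_algebraMap (algebraMap k K).injective

lemma ge_natCast (n : ℕ) : ge v 0 (n : K) := by
  have h : (n : K) = algebraMap k K n := by simp
  rw [h]; exact ge_const v _

lemma ge_ofNat (n : ℕ) [n.AtLeastTwo] : ge v 0 (OfNat.ofNat n : K) := by
  have h : (OfNat.ofNat n : K) = algebraMap k K (OfNat.ofNat n) := (map_ofNat (algebraMap k K) n).symm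
  rw [h]; exact ge_const v _

/-- numerical coefficient: `ge v t f → ge v t (q f)` for a numeral `q` equal to the image of `c` -/
lemma _root_.Pool.Agent.H27.LV.ge.numMul {t : ℤ} {x q : K} (h : ge v t x) (c : k) (hc : q = algebraMap k K c) :
    ge v t (q * x) := by
  rw [hc]; exact h.cmul c

end Ge

section Sm

variable {k K : Type} [Field k] [Field K] [Algebra k K] {N : DV k K → ℤ}

lemma Sm.add {w : ℕ} {f g : K} (hf : Sm N w f) (hg : Sm N w g) : Sm N w (f + g) :=
  fun v => (hf v).add (hg v)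

lemma Sm.neg {w : ℕ} {f : K} (hf : Sm N w f) : Sm N w (-f) := fun v => (hf v).neg

lemma Sm.sub {w : ℕ} {f g : K} (hf : Sm N w f) (hg : Sm N w g) : Sm N w (f - g) :=
  fun v => (hf v).sub (hg v)

lemma Sm.mul {w w' : ℕ} {f g : K} (hf : Sm N w f) (hg : Sm N w' g) : Sm N (w + w') (f * g) :=
  fun v => (hf v).mulLe (hg v) (by push_cast; linarith [(by ring :
    ((w : ℤ) + w') * N v = w * N v + w' * N v)])

lemma Sm.pow {w : ℕ} {f : K} (hf : Sm N w f) (n : ℕ) : Sm N (n * w) (f ^ n) :=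
  fun v => ((hf v).powN n).mono (by push_cast; linarith [(by ring :
    ((n : ℤ) * w) * N v = n * (w * N v))])

lemma Sm.mono (hN : ∀ v, 0 ≤ N v) {w w' : ℕ} {f : K} (hf : Sm N w f) (h : w ≤ w') : Sm N w' f :=
  fun v => (hf v).mono (by
    have h1 : (w : ℤ) ≤ w' := by exact_mod_cast h
    have := mul_le_mul_of_nonneg_right h1 (hN v)
    omega)

lemma Sm.zero (w : ℕ) : Sm N w (0 : K) := fun v => ge_zero v _

lemma Sm.const (c : k) : Sm N 0 (algebraMap k K c) := fun v => by simpa using ge_const v c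

lemma Sm.one : Sm N 0 (1 : K) := fun v => by simpa using ge_one v

lemma Sm.const' (hN : ∀ v, 0 ≤ N v) (w : ℕ) (c : k) : Sm N w (algebraMap k K c) :=
  (Sm.const c).mono hN (Nat.zero_le _)

lemma Sm.const_mul {w : ℕ} {f : K} (hf : Sm N w f) (c : k) : Sm N w (algebraMap k K c * f) :=
  fun v => (hf v).cmul c

/-- numerical coefficient: use as `hf.num (14 / 15) (by simp)` -/
lemma Sm.num {w : ℕ} {f q : K} (hf : Sm N w f) (c : k) (hc : q = algebraMap k K c) :
    Sm N w (q * f) := by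
  rw [hc]; exact hf.const_mul c

lemma Sm.of_sq {w : ℕ} {f : K} (hf : Sm N (2 * w) (f ^ 2)) : Sm N w f := fun v =>
  ge.ofSq ((hf v).mono (by push_cast; linarith [(by ring :
    ((2 : ℤ) * w) * N v = 2 * (w * N v))]))

lemma Sm.of_pow {w n : ℕ} (hn : n ≠ 0) {f : K} (hf : Sm N (n * w) (f ^ n)) : Sm N w f := fun v =>
  ge.ofPow hn ((hf v).mono (by push_cast; linarith [(by ring :
    ((n : ℤ) * w) * N v = n * (w * N v))]))

end Sm

section NN

variable {k K : Type} [Field k] [Field K] [Algebra k K] {δ : Derivation k K K}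
  {S : Finset (DV k K)} {R : K} {v : DV k K}

lemma NN_of_VG (h : VG δ S R v) : NN δ S R v = 0 := if_pos h

lemma NN_of_not (h : ¬ VG δ S R v) : NN δ S R v = ee δ v := if_neg h

lemma NN_nonneg (h : ∀ v, 0 ≤ ee δ v) (v : DV k K) : 0 ≤ NN δ S R v := by
  unfold NN
  split_ifs
  · exact le_rfl
  · exact h v

/-- weights: regular at the very good places and poles of order at most `w e_v` at the others -/
lemma Sm_of {w : ℕ} {f : K} (h1 : ∀ v, VG δ S R v → ge v 0 f)
    (h2 : ∀ v, ¬ VG δ S R v → ge v (-(w * ee δ v)) f) : Sm (NN δ S R) w f := by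
  intro v
  by_cases h : VG δ S R v
  · rw [NN_of_VG h]; simpa using h1 v h
  · rw [NN_of_not h]; exact h2 v h

/-- a function of weight `w` is regular at the very good places -/
lemma Sm.reg {w : ℕ} {f : K} (hf : Sm (NN δ S R) w f) (h : VG δ S R v) : ge v 0 f := by
  have := hf v
  rw [NN_of_VG h] at this
  simpa using this

lemma Sm.pole (h0 : ∀ v, 0 ≤ ee δ v) {w : ℕ} {f : K} (hf : Sm (NN δ S R) w f) (v : DV k K) :
    ge v (-(w * ee δ v)) f := by
  refine (hf v).mono ?_
  have h1 : NN δ S R v ≤ ee δ v := by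
    unfold NN
    split_ifs
    · exact h0 v
    · exact le_rfl
  have h2 : (0 : ℤ) ≤ w := Int.natCast_nonneg w
  have := mul_le_mul_of_nonneg_left h1 h2
  omega

end NN

section Local

variable {k K : Type} [Field k] [IsAlgClosed k] [CharZero k] [Field K] [Algebra k K]
  [Algebra.EssFiniteType k K]

/-- first local estimate: derivatives of regular functions -/
lemma ge_der_reg (htr : Algebra.trdeg k K = 1) {δ : Derivation k K K} (hδ : δ ≠ 0) (v : DV k K)
    {f : K} (hf : ge v 0 f) : ge v (1 - ee δ v) (δ f) := by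
  have h := (dor k K htr δ hδ v).2.1.1 f (ge_zero_iff.1 hf)
  unfold ee
  simpa using h

/-- second local estimate -/
lemma ge_der (htr : Algebra.trdeg k K = 1) {δ : Derivation k K K} (hδ : δ ≠ 0) (v : DV k K)
    {f : K} {t : ℤ} (hf : ge v t f) : ge v (t - ee δ v) (δ f) := by
  by_cases h0 : f = 0
  · rw [h0, map_zero]; exact ge_zero v _
  have h := (dor k K htr δ hδ v).2.1.2 f h0
  refine h.mono ?_
  have := (ge_iff h0).1 hf
  unfold ee
  omega

/-- exact order of the derivative -/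
lemma ord_der (htr : Algebra.trdeg k K = 1) {δ : Derivation k K K} (hδ : δ ≠ 0) (v : DV k K)
    {f : K} (hf : v.ord f ≠ 0) : δ f ≠ 0 ∧ v.ord (δ f) = v.ord f - ee δ v := by
  have h := (dor k K htr δ hδ v).2.2 f hf
  refine ⟨h.1, ?_⟩
  rw [h.2]
  unfold ee
  ring

/-- logarithmic derivatives -/
lemma ge_log (htr : Algebra.trdeg k K = 1) {δ : Derivation k K K} (hδ : δ ≠ 0) (v : DV k K)
    (f : K) : ge v (-(ee δ v)) (δ f / f) := by
  by_cases h0 : f = 0
  · rw [h0, div_zero]; exact ge_zero v _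
  have h := ge_der htr hδ v (ge_of_ord v (x := f))
  rcases h with h | h
  · left; rw [h, zero_div]
  · by_cases h1 : δ f = 0
    · left; rw [h1, zero_div]
    right
    rw [v.ord_div h1 h0]
    omega

/-- derivatives of functions of weight `w` -/
lemma Sm.der (htr : Algebra.trdeg k K = 1) {δ : Derivation k K K} (hδ : δ ≠ 0)
    {S : Finset (DV k K)} {R : K} {w : ℕ} {f : K} (hf : Sm (NN δ S R) w f) :
    Sm (NN δ S R) (w + 1) (δ f) := by
  refine Sm_of (fun v hv => ?_) (fun v hv => ?_)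
  · have h := ge_der_reg htr hδ v (hf.reg hv)
    rw [hv.2.1] at h
    simpa using h
  · have h := hf v
    rw [NN_of_not hv] at h
    refine (ge_der htr hδ v h).mono ?_
    push_cast
    linarith [(by ring : ((w : ℤ) + 1) * ee δ v = w * ee δ v + ee δ v)]

end Local

section Poly

open Polynomial

variable {k K : Type} [Field k] [Field K] [Algebra k K] {N : DV k K → ℤ}

lemma PSm.add {w : ℕ} {P Q : K[X]} (hP : PSm N w P) (hQ : PSm N w Q) : PSm N w (P + Q) := by
  intro i; rw [coeff_add]; exact (hP i).add (hQ i)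

lemma PSm.sub {w : ℕ} {P Q : K[X]} (hP : PSm N w P) (hQ : PSm N w Q) : PSm N w (P - Q) := by
  intro i; rw [coeff_sub]; exact (hP i).sub (hQ i)

lemma PSm.neg {w : ℕ} {P : K[X]} (hP : PSm N w P) : PSm N w (-P) := by
  intro i; rw [coeff_neg]; exact (hP i).neg

lemma Sm.sum {w : ℕ} {ι : Type*} (s : Finset ι) (f : ι → K) (h : ∀ i ∈ s, Sm N w (f i)) :
    Sm N w (∑ i ∈ s, f i) := fun v => ge_sum v s f _ fun i hi => h i hi v

lemma PSm.mul {w w' : ℕ} {P Q : K[X]} (hP : PSm N w P) (hQ : PSm N w' Q) :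
    PSm N (w + w') (P * Q) := by
  intro i
  rw [coeff_mul]
  exact Sm.sum _ _ fun p _ => (hP p.1).mul (hQ p.2)

lemma PSm.mono (hN : ∀ v, 0 ≤ N v) {w w' : ℕ} {P : K[X]} (hP : PSm N w P) (h : w ≤ w') :
    PSm N w' P := fun i => (hP i).mono hN h

lemma PSm.C {w : ℕ} {f : K} (hf : Sm N w f) : PSm N w (C f) := by
  intro i
  rw [coeff_C]
  split_ifs
  · exact hf
  · exact Sm.zero w

lemma PSm.X : PSm N 0 (X : K[X]) := by
  intro i
  rw [coeff_X]
  split_ifs
  · exact Sm.one
  · exact Sm.zero 0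

lemma PSm.pow {w : ℕ} {P : K[X]} (hP : PSm N w P) (n : ℕ) : PSm N (n * w) (P ^ n) := by
  induction n with
  | zero =>
    rw [pow_zero, Nat.zero_mul, ← C_1]
    exact PSm.C Sm.one
  | succ n ih =>
    rw [pow_succ, Nat.succ_mul]
    exact ih.mul hP

end Poly

section Finsum

variable {V : Type*}

lemma fs_mono {f g : V → ℤ} (hf : (Function.support f).Finite) (hg : (Function.support g).Finite)
    (h : ∀ v, f v ≤ g v) : ∑ᶠ v, f v ≤ ∑ᶠ v, g v := finsum_le_finsum' hf hg h

lemma fs_finite_iff {f : V → ℤ} : (Function.support f).Finite ↔ {v | f v ≠ 0}.Finite := Iff.rfl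

lemma fs_add {f g : V → ℤ} (hf : (Function.support f).Finite)
    (hg : (Function.support g).Finite) : ∑ᶠ v, (f v + g v) = ∑ᶠ v, f v + ∑ᶠ v, g v :=
  finsum_add_distrib hf hg

lemma fs_mul (c : ℤ) (f : V → ℤ) :
    ∑ᶠ v, c * f v = c * ∑ᶠ v, f v := (mul_finsum f c).symm

lemma fs_nonneg {f : V → ℤ} (h : ∀ v, 0 ≤ f v) : 0 ≤ ∑ᶠ v, f v := finsum_nonneg h

end Finsum

end Pool.Agent.H92.FQ
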