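import Pool.Agent.H27.LV.Curve
import Pool.Agent.H58.LV.DFI

/-!
# MP_70ba79_ag: the complement of the Fermat quartic, definitions

`k` algebraically closed of characteristic `0`, `K` the function field of a curve, `S` its points
at infinity, `x ^ 4 + y ^ 4 = 1 + u` with a unit `u`, `δ` the derivation with `δ u = u`.
Places are the discrete valuations `SC.DV k K`; `ge v t f` means that `f` vanishes to order at
least `t` at `v` (Pool/Agent/H27/LV/Defs.lean), `ordD v δ` is the order of `δ (v.unif)`.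
-/

set_option autoImplicit false

namespace Pool.Agent.H92.FQ

open SC Pool.Agent.H27.LV

section Places

variable {k K : Type} [Field k] [Field K] [Algebra k K]

/-- degree of a function: the number of its poles -/
noncomputable def dg (k : Type) {K : Type} [Field k] [Field K] [Algebra k K] (f : K) : ℤ :=
  ∑ᶠ v : DV k K, max 0 (-(v.ord f))

/-- `e_v`: the derivation lowers orders at `v` by at most `e_v` -/
noncomputable def ee (δ : Derivation k K K) (v : DV k K) : ℤ := 1 - ordD v δ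

open Classical in
/-- `n_v`: contribution of the place `v` to `χ = 2 g - 2 + #S` -/
noncomputable def nn (δ : Derivation k K K) (S : Finset (DV k K)) (v : DV k K) : ℤ :=
  ee δ v - if v ∈ S then 0 else 1

/-- `χ = 2 g - 2 + #S` -/
noncomputable def chi (δ : Derivation k K K) (S : Finset (DV k K)) : ℤ := canDeg δ + S.card

/-- very good places: `v` is not in `S`, `δ` is regular and does not vanish at `v`, and `R` is
regular and does not vanish at `v` -/
def VG (δ : Derivation k K K) (S : Finset (DV k K)) (R : K) (v : DV k K) : Prop :=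
  v ∉ S ∧ ee δ v = 1 ∧ v.ord R = 0

open Classical in
/-- weight of the place `v`: `0` at the very good places and `e_v` at the others -/
noncomputable def NN (δ : Derivation k K K) (S : Finset (DV k K)) (R : K) (v : DV k K) : ℤ :=
  if VG δ S R v then 0 else ee δ v

/-- `f` has weight at most `w` with respect to `N`: at each `v` its pole has order `≤ w N_v` -/
def Sm (N : DV k K → ℤ) (w : ℕ) (f : K) : Prop := ∀ v, ge v (-(w * N v)) f

/-- The situation: `x ^ 4 + y ^ 4 = 1 + u`, `δ u = u`, `u` is a unit outside `S`, `x` and `y` are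
regular outside `S`. -/
structure Sit (δ : Derivation k K K) (S : Finset (DV k K)) (x y u : K) : Prop where
  eq : x ^ 4 + y ^ 4 = 1 + u
  du : δ u = u
  u0 : u ≠ 0
  unit : ∀ v, v ∉ S → v.ord u = 0
  xreg : ∀ v, v ∉ S → 0 ≤ v.ord x
  yreg : ∀ v, v ∉ S → 0 ≤ v.ord y
  x0 : x ≠ 0
  y0 : y ≠ 0

end Places

/-- Data of the differential system. -/
structure Dat (k K : Type) [Field k] [Field K] [Algebra k K] where
  δ : Derivation k K K
  x : K
  y : K
  R : K
  r : K
  j : K
  c : K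
  t : K
  m : K
  A : K
  B : K
  z : K

namespace Dat

variable {k K : Type} [Field k] [Field K] [Algebra k K] (d : Dat k K)

def φ : K := 2 * d.R

def ρ : K := 2 - d.r

def Δ : K := d.j - d.c

/-- covariant derivative of a function of weight `w` -/
def nab (w : K) (f : K) : K := d.δ f - w / 2 * d.r * f

def a : K := 14 / 15 * (7 * d.j - 3 * d.c)

def a₁ : K := -(7 / 2) * d.j + 9 / 2 * d.c

/-- `G = 4 m B` -/
def G : K := 12 * d.t ^ 3 - 78 / 7 * d.t * d.z + 42 * d.Δ * d.t + 7 / 8 * d.nab 2 d.j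

/-- the small function of the conic `z² - a t² + (10/7) a z + a' t = κ` -/
def κ : K := d.z ^ 2 - d.a * d.t ^ 2 + 10 / 7 * d.a * d.z + d.nab 2 d.a * d.t

/-- The differential system. -/
structure Ok : Prop where
  R0 : d.R ≠ 0
  x0 : d.x ≠ 0
  y0 : d.y ≠ 0
  dR : d.δ d.R = d.r * d.R
  dx : 2 * d.δ d.x = (d.t + d.ρ / 8 + d.m) * d.x
  dy : 2 * d.δ d.y = (d.t + d.ρ / 8 - d.m) * d.y
  dt : d.δ d.t = d.r / 2 * d.t - 2 * d.t ^ 2 - 2 * d.m ^ 2 - d.A + d.c
  dm : d.δ d.m = d.r / 2 * d.m - 4 * d.t * d.m + d.B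
  dA : d.δ d.A = d.r * d.A + 2 * d.m * d.B
  dB : d.δ d.B = d.r * d.B + 2 * d.m * d.A
  hAB : d.B ^ 2 - d.A ^ 2 = d.φ ^ 2
  hA : d.A = d.j - 12 / 7 * d.t ^ 2 - 9 / 7 * d.m ^ 2
  hz : d.z = d.t ^ 2 - d.m ^ 2 + 7 / 2 * d.Δ
  AB1 : (d.A + d.B) * d.y ^ 2 = d.φ * d.x ^ 2
  AB2 : (d.B - d.A) * d.x ^ 2 = d.φ * d.y ^ 2
  hc : d.c = d.ρ / 8 - d.ρ ^ 2 / 32 + d.δ d.r / 8

/-- The small functions of the system. -/
structure Sml (S : Finset (DV k K)) : Prop where
  ee0 : ∀ v, 0 ≤ ee d.δ v
  ee1 : ∀ v, v ∉ S → 1 ≤ ee d.δ v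
  /-- zeros of `x` and `y` at the very good places -/
  xy : ∀ v, VG d.δ S d.R v → (v.ord d.x = 0 ∧ v.ord d.y = 0) ∨
    (v.ord d.x = 1 ∧ v.ord d.y = 0) ∨ (v.ord d.x = 0 ∧ v.ord d.y = 1)
  t : ∀ v, ge v (-(ee d.δ v)) d.t
  m : ∀ v, ge v (-(ee d.δ v)) d.m
  R : Sm (NN d.δ S d.R) 2 d.R
  r : Sm (NN d.δ S d.R) 1 d.r
  j : Sm (NN d.δ S d.R) 2 d.j
  c : Sm (NN d.δ S d.R) 2 d.c

end Dat

section FromXY

variable {k K : Type} [Field k] [Field K] [Algebra k K]

/-- the function `R` -/
noncomputable def RR (δ : Derivation k K K) (x y : K) : K :=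
  (x * δ (δ x) + 3 * δ x ^ 2 - x * δ x) / y ^ 2

/-- the data attached to `x` and `y` -/
noncomputable def dat (δ : Derivation k K K) (x y : K) : Dat k K :=
  let R := RR δ x y
  let r := δ R / R
  let ρ := 2 - r
  let a := δ x / x
  let b := δ y / y
  let t := a + b - ρ / 8
  let m := a - b
  let A := R * (x ^ 2 / y ^ 2 - y ^ 2 / x ^ 2)
  let B := R * (x ^ 2 / y ^ 2 + y ^ 2 / x ^ 2)
  let j := A + 12 / 7 * t ^ 2 + 9 / 7 * m ^ 2
  let c := ρ / 8 - ρ ^ 2 / 32 + δ r / 8
  { δ := δ, x := x, y := y, R := R, r := r, j := j, c := c, t := t, m := m, A := A, B := B,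
    z := t ^ 2 - m ^ 2 + 7 / 2 * (j - c) }

end FromXY

section Poly

variable {k K : Type} [Field k] [Field K] [Algebra k K]

open Polynomial

/-- all the coefficients have weight at most `w` -/
def PSm (N : DV k K → ℤ) (w : ℕ) (P : K[X]) : Prop := ∀ i, Sm N w (P.coeff i)

/-- `t` is not a root of a nonzero polynomial of degree at most `6` with coefficients of weight at
most `12` -/
def Free (N : DV k K → ℤ) (t : K) : Prop :=
  ∀ P : K[X], P.natDegree ≤ 6 → PSm N 12 P → P.eval t = 0 → P = 0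

end Poly

end Pool.Agent.H92.FQ
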