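import Pool.Agent.H92.FQ.IDS

set_option autoImplicit false

namespace Pool.Agent.H92.FQ

open SC Pool.Agent.H27.LV Polynomial

theorem fmc (hI : T_IDS) : T_FMC := by
  intro k K _ _ _ _ d h
  have hcz : CharZero K := charZeroK (k := k)
  obtain ⟨-, h2, h3, h4, -, -⟩ := hI k K d h
  have hq : d.z ^ 2 + 10 / 7 * d.a * d.z = d.a * d.t ^ 2 - d.nab 2 d.a * d.t + d.κ := by
    unfold Dat.κ; ring
  have hF : 16 * (d.t ^ 2 - d.z + 7 / 2 * d.Δ) *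
      (d.φ ^ 2 + (-3 * d.t ^ 2 + 9 / 7 * d.z + d.a₁) ^ 2) = d.G ^ 2 := by
    rw [← h3, ← h4]; exact h2
  refine ⟨?_, ?_, ?_, ?_, ?_⟩
  · simp only [Dat.PA1, Dat.PA0, Dat.PE, Dat.PC2, Dat.PC1, Dat.PC0, eval_add, eval_sub, eval_mul,
      eval_C, eval_pow, eval_X]
    unfold Dat.G at hF
    have ha : d.a = 14 / 15 * (7 * d.j - 3 * d.c) := rfl
    have ha1 : d.a₁ = -(7 / 2) * d.j + 9 / 2 * d.c := rfl
    have hΔ : d.Δ = d.j - d.c := rfl
    have h10 : -24 * (7 * d.j - 3 * d.c) = -504 * d.Δ - 96 * d.a₁ := by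
      rw [ha1, hΔ]; ring
    rw [h10]
    linear_combination hF - (-(1296 / 49) * d.z + (180 / 7 * d.t ^ 2 +
      16 * (81 / 49 * (7 / 2 * d.Δ) - 18 / 7 * d.a₁)) + 12960 / 343 * d.a) * hq
  · simp only [Dat.PE, eval_add, eval_sub, eval_mul, eval_C, eval_pow, eval_X]
    exact hq
  · unfold Dat.PE
    compute_degree
  · unfold Dat.PA1 Dat.PE Dat.PC2 Dat.PC1
    compute_degree
  · have e : d.PA0 = C (-(180 / 7) * d.nab 2 d.a - 21 * d.nab 2 d.j) * X ^ 3 +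
        C (12960 / 343 * d.a ^ 2 + 180 / 7 * d.κ +
          16 * (81 / 49 * (7 / 2 * d.Δ) - 18 / 7 * d.a₁) * d.a +
          16 * (d.φ ^ 2 + d.a₁ ^ 2 - 21 * d.a₁ * d.Δ) - 1764 * d.Δ ^ 2) * X ^ 2 +
        C (-(12960 / 343) * d.a * d.nab 2 d.a -
          16 * (81 / 49 * (7 / 2 * d.Δ) - 18 / 7 * d.a₁) * d.nab 2 d.a -
          147 / 2 * d.Δ * d.nab 2 d.j) * X +
        C (12960 / 343 * d.a * d.κ + 16 * (81 / 49 * (7 / 2 * d.Δ) - 18 / 7 * d.a₁) * d.κ +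
          56 * d.Δ * (d.φ ^ 2 + d.a₁ ^ 2) - 49 / 64 * d.nab 2 d.j ^ 2) := by
      have h11 : C (-24 * (7 * d.j - 3 * d.c)) = -(C (180 / 7) * C d.a) := by
        rw [← C_mul, ← C_neg]
        congr 1
        unfold Dat.a
        ring
      simp only [Dat.PA0, Dat.PE, Dat.PC2, Dat.PC0, h11]
      simp only [C_add, C_sub, C_mul, C_neg, C_pow]
      ring
    rw [e]
    compute_degree

end Pool.Agent.H92.FQ
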