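import Pool.Agent.H92.FQ.Targets

set_option autoImplicit false

namespace Pool.Agent.H92.FQ

open SC Pool.Agent.H27.LV

lemma der_num {k K : Type} [Field k] [Field K] [Algebra k K] (δ : Derivation k K K) (c : k)
    (q f : K) (h : q = algebraMap k K c) : δ (q * f) = q * δ f := by
  rw [h, δ.leibniz, δ.map_algebraMap, smul_zero, add_zero]; rfl

theorem ids : T_IDS := by
  intro k K _ _ _ _ d h
  have hcz : CharZero K := charZeroK (k := k)
  obtain ⟨δ, x, y, R, r, j, c, t, m, A, B, z⟩ := d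
  obtain ⟨-, -, -, dR, dx, dy, dt, dm, dA, dB, hAB, hA, hz, -, -, hc⟩ := h
  simp only [Dat.φ, Dat.ρ, Dat.Δ, Dat.nab, Dat.a₁, Dat.G] at *
  have e1 : δ A = δ j - 24 / 7 * t * δ t - 18 / 7 * m * δ m := by
    rw [hA, map_sub, map_sub, der_num δ (12 / 7) _ _ (by simp only [map_div₀, map_ofNat]), der_num δ (9 / 7) _ _ (by simp only [map_div₀, map_ofNat]),
      pow_two, pow_two, δ.leibniz, δ.leibniz]
    simp only [smul_eq_mul]
    ring
  rw [dA, dt, dm] at e1
  have h3 : m ^ 2 = t ^ 2 - z + 7 / 2 * (j - c) := by linear_combination hz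
  have h4 : A = -3 * t ^ 2 + 9 / 7 * z + (-(7 / 2) * j + 9 / 2 * c) := by
    linear_combination hA - 9 / 7 * h3
  have h1 : 4 * m * B = 12 * t ^ 3 - 78 / 7 * t * z + 42 * (j - c) * t +
      7 / 8 * (δ j - 2 / 2 * r * j) := by
    linear_combination (7 / 8) * e1 + (3 * t - 7 / 8 * r) * hA + (78 / 7) * t * h3
  refine ⟨h1, ?_, h3, h4, ?_, ?_⟩
  · rw [← h1]
    linear_combination -16 * m ^ 2 * hAB
  · have e2 : δ z = 2 * t * δ t - 2 * m * δ m + 7 / 2 * (δ j - δ c) := by
      rw [hz, map_add, map_sub, der_num δ (7 / 2) _ _ (by simp only [map_div₀, map_ofNat]), pow_two, pow_two, δ.leibniz,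
        δ.leibniz, map_sub]
      simp only [smul_eq_mul]
      ring
    rw [dt, dm] at e2
    linear_combination e2 - 1 / 2 * h1 - 2 * t * h4 + (4 * t) * h3 - r * hz
  · linear_combination dt - h4 - 2 * h3

end Pool.Agent.H92.FQ
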