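import Pool.Agent.H92.FQ.Basic

/-!
# MP_70ba79_ag: the complement of the Fermat quartic, targets of the board `fq_modules`

Context of the targets with valuations: `k` algebraically closed of characteristic `0`, `K` a
function field of one variable over `k`. Available without hypotheses: `rat`, `pfm`, `pfi`, `ker`,
`dor` of Pool/Agent/H27/LV/Curve.lean, `Pool.Agent.H58.LV.dfi dor pfm rat`, and
Pool/Agent/H92/FQ/Basic.lean.
-/

set_option autoImplicit false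

namespace Pool.Agent.H92.FQ

open SC Pool.Agent.H27.LV Polynomial

/-! ### Counting on curves -/

/-- CAN: the canonical degree does not depend on the derivation -/
def T_CAN : Prop := ∀ (k K : Type) [Field k] [IsAlgClosed k] [CharZero k] [Field K] [Algebra k K]
  [Algebra.EssFiniteType k K], Algebra.trdeg k K = 1 →
  ∀ (D : Derivation k K K) (f : K), D ≠ 0 → f ≠ 0 → canDeg (f • D) = canDeg D

/-- CHI: the numbers `e_v` and `n_v` of the derivation `u d/du` -/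
def T_CHI : Prop := ∀ (k K : Type) [Field k] [IsAlgClosed k] [CharZero k] [Field K] [Algebra k K]
  [Algebra.EssFiniteType k K], Algebra.trdeg k K = 1 →
  ∀ (δ : Derivation k K K) (S : Finset (DV k K)) (u : K), δ u = u → u ≠ 0 →
  (∀ v, v ∉ S → v.ord u = 0) →
  (∀ v, v.ord u ≠ 0 → ee δ v = 0) ∧ (∀ v, v.ord u = 0 → 1 ≤ ee δ v) ∧ (∀ v, 0 ≤ ee δ v) ∧
  (∀ v, 0 ≤ nn δ S v) ∧ {v | nn δ S v ≠ 0}.Finite ∧ ∑ᶠ v, nn δ S v = chi δ S

/-- DGR: calculus of degrees -/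
def T_DGR : Prop := ∀ (k K : Type) [Field k] [IsAlgClosed k] [CharZero k] [Field K] [Algebra k K]
  [Algebra.EssFiniteType k K], Algebra.trdeg k K = 1 →
  (∀ f : K, {v : DV k K | max 0 (-(v.ord f)) ≠ 0}.Finite) ∧
  (∀ f : K, {v : DV k K | max 0 (v.ord f) ≠ 0}.Finite) ∧
  (∀ f : K, 0 ≤ dg k f) ∧
  (∀ f : K, ∑ᶠ v : DV k K, max 0 (v.ord f) = dg k f) ∧
  (∀ f g : K, dg k (f * g) ≤ dg k f + dg k g) ∧
  (∀ f : K, dg k f⁻¹ = dg k f) ∧
  (∀ (f : K) (n : ℕ), dg k (f ^ n) = n * dg k f) ∧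
  (∀ (f : K) (c : k), dg k (f + algebraMap k K c) = dg k f) ∧
  (∀ (N : DV k K → ℤ) (f : K), {v | N v ≠ 0}.Finite → (∀ v, 0 ≤ N v) →
    (∀ v, ge v (-(N v)) f) → dg k f ≤ ∑ᶠ v, N v)

/-- PRT: roots of polynomials -/
def T_PRT : Prop := ∀ (k K : Type) [Field k] [IsAlgClosed k] [CharZero k] [Field K] [Algebra k K]
  [Algebra.EssFiniteType k K], Algebra.trdeg k K = 1 →
  ∀ (N : DV k K → ℤ) (W : ℕ) (P : K[X]) (t : K), {v | N v ≠ 0}.Finite → (∀ v, 0 ≤ N v) →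
  P ≠ 0 → PSm N W P → P.eval t = 0 → dg k t ≤ 2 * W * ∑ᶠ v, N v

/-- RES: values of logarithmic derivatives at the zeros and poles of `u` -/
def T_RES : Prop := ∀ (k K : Type) [Field k] [IsAlgClosed k] [CharZero k] [Field K] [Algebra k K]
  [Algebra.EssFiniteType k K], Algebra.trdeg k K = 1 →
  ∀ (δ : Derivation k K K) (u : K), δ u = u → u ≠ 0 → ∀ v : DV k K, v.ord u ≠ 0 →
  ∀ g : K, g ≠ 0 → ge v 1 (δ g / g - algebraMap k K ((v.ord g : k) / (v.ord u : k)))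

/-- PW: fourth powers of the form `β + γ u` -/
def T_PW : Prop := ∀ (k K : Type) [Field k] [IsAlgClosed k] [CharZero k] [Field K] [Algebra k K]
  [Algebra.EssFiniteType k K], Algebra.trdeg k K = 1 →
  ∀ (δ : Derivation k K K) (S : Finset (DV k K)) (u g : K) (β γ : k), δ u = u → u ≠ 0 →
  (∀ v, v ∉ S → v.ord u = 0) → β ≠ 0 → γ ≠ 0 →
  g ^ 4 = algebraMap k K β + algebraMap k K γ * u → 3 * dg k u ≤ 4 * chi δ S

/-- MAS: the degrees of `x` and `y` are bounded by the degree of `u` -/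
def T_MAS : Prop := ∀ (k K : Type) [Field k] [IsAlgClosed k] [CharZero k] [Field K] [Algebra k K]
  [Algebra.EssFiniteType k K], Algebra.trdeg k K = 1 →
  ∀ (δ : Derivation k K K) (S : Finset (DV k K)) (x y u : K), Sit δ S x y u →
  4 * dg k x ≤ 3 * dg k u + 2 * chi δ S ∧ 4 * dg k y ≤ 3 * dg k u + 2 * chi δ S

/-- DZ: `x / y` small implies `u` small -/
def T_DZ : Prop := ∀ (k K : Type) [Field k] [IsAlgClosed k] [CharZero k] [Field K] [Algebra k K]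
  [Algebra.EssFiniteType k K], Algebra.trdeg k K = 1 →
  ∀ (δ : Derivation k K K) (S : Finset (DV k K)) (x y u : K), Sit δ S x y u →
  dg k u ≤ 2 * chi δ S + 2 * dg k (x ^ 2 / y ^ 2)

/-- UC: the case of a constant `u` -/
def T_UC : Prop := ∀ (k K : Type) [Field k] [IsAlgClosed k] [CharZero k] [Field K] [Algebra k K]
  [Algebra.EssFiniteType k K], Algebra.trdeg k K = 1 →
  ∀ (D : Derivation k K K) (x y : K) (c : k), D ≠ 0 → c ≠ 0 → x ^ 4 + y ^ 4 = algebraMap k K c →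
  ¬ (x ∈ Set.range (algebraMap k K) ∧ y ∈ Set.range (algebraMap k K)) →
  dg k x ≤ canDeg D ∧ dg k y ≤ canDeg D

/-! ### Local estimates for `R`, `j`, `κ` -/

/-- RLO: local estimates for `R` -/
def T_RLO : Prop := ∀ (k K : Type) [Field k] [IsAlgClosed k] [CharZero k] [Field K] [Algebra k K]
  [Algebra.EssFiniteType k K], Algebra.trdeg k K = 1 →
  ∀ (δ : Derivation k K K) (S : Finset (DV k K)) (x y u : K), Sit δ S x y u →
  (∀ v, ge v (-(2 * ee δ v)) (RR δ x y)) ∧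
  (∀ v, ge v (-(2 * ee δ v)) (RR δ x y * (x ^ 2 / y ^ 2))) ∧
  (∀ v, ge v (-(2 * ee δ v)) (RR δ x y * (y ^ 2 / x ^ 2))) ∧
  (∀ v, v ∉ S → ee δ v = 1 → ge v 0 (RR δ x y))

/-- ZR: zeros of `x` and `y` at the very good places -/
def T_ZR : Prop := ∀ (k K : Type) [Field k] [IsAlgClosed k] [CharZero k] [Field K] [Algebra k K]
  [Algebra.EssFiniteType k K], Algebra.trdeg k K = 1 →
  ∀ (δ : Derivation k K K) (S : Finset (DV k K)) (x y u : K), Sit δ S x y u → RR δ x y ≠ 0 →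
  ∀ v, VG δ S (RR δ x y) v → (v.ord x = 0 ∧ v.ord y = 0) ∨ (v.ord x = 1 ∧ v.ord y = 0) ∨
    (v.ord x = 0 ∧ v.ord y = 1)

/-- GX: double zeros of the auxiliary function -/
def T_GX : Prop := ∀ (k K : Type) [Field k] [IsAlgClosed k] [CharZero k] [Field K] [Algebra k K]
  [Algebra.EssFiniteType k K], Algebra.trdeg k K = 1 →
  ∀ (δ : Derivation k K K) (v : DV k K) (x y R r : K), δ ≠ 0 → ee δ v = 1 → v.ord x = 1 →
  y ≠ 0 → v.ord y = 0 → R ≠ 0 → v.ord R = 0 → δ R = r * R →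
  x * δ (δ x) + 3 * δ x ^ 2 - x * δ x = R * y ^ 2 →
  ge v 2 (y ^ 2 * δ x ^ 2 + x ^ 2 * δ y ^ 2 + 2 / 7 * x * y * δ x * δ y
    - (2 - r) / 7 * x * y * (y * δ x + x * δ y) + R / 3 * (x ^ 4 - y ^ 4))

/-- DAT: the differential system -/
def T_DAT : Prop := ∀ (k K : Type) [Field k] [CharZero k] [Field K] [Algebra k K]
  (δ : Derivation k K K) (x y u : K), x ≠ 0 → y ≠ 0 → x ^ 4 + y ^ 4 = 1 + u → δ u = u →
  RR δ x y ≠ 0 → (dat δ x y).Ok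

/-- JRG: `j` is regular at the very good places -/
def T_JRG : Prop := ∀ (k K : Type) [Field k] [IsAlgClosed k] [CharZero k] [Field K] [Algebra k K]
  [Algebra.EssFiniteType k K], Algebra.trdeg k K = 1 →
  ∀ (δ : Derivation k K K) (S : Finset (DV k K)) (x y u : K), Sit δ S x y u → RR δ x y ≠ 0 →
  ∀ v, VG δ S (RR δ x y) v → ge v 0 (dat δ x y).j

/-- SML: the small functions -/
def T_SML : Prop := ∀ (k K : Type) [Field k] [IsAlgClosed k] [CharZero k] [Field K] [Algebra k K]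
  [Algebra.EssFiniteType k K], Algebra.trdeg k K = 1 →
  ∀ (δ : Derivation k K K) (S : Finset (DV k K)) (x y u : K), Sit δ S x y u → RR δ x y ≠ 0 →
  (dat δ x y).Sml S

/-- NSM: the sum of the weights of the places -/
def T_NSM : Prop := ∀ (k K : Type) [Field k] [IsAlgClosed k] [CharZero k] [Field K] [Algebra k K]
  [Algebra.EssFiniteType k K], Algebra.trdeg k K = 1 →
  ∀ (δ : Derivation k K K) (S : Finset (DV k K)) (x y u : K), Sit δ S x y u → RR δ x y ≠ 0 →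
  {v | NN δ S (RR δ x y) v ≠ 0}.Finite ∧ ∑ᶠ v, NN δ S (RR δ x y) v ≤ 6 * chi δ S

/-- IDS: consequences of the differential system -/
def T_IDS : Prop := ∀ (k K : Type) [Field k] [CharZero k] [Field K] [Algebra k K]
  (d : Dat k K), d.Ok →
  4 * d.m * d.B = d.G ∧ 16 * d.m ^ 2 * (d.φ ^ 2 + d.A ^ 2) = d.G ^ 2 ∧
  d.m ^ 2 = d.t ^ 2 - d.z + 7 / 2 * d.Δ ∧ d.A = -3 * d.t ^ 2 + 9 / 7 * d.z + d.a₁ ∧
  d.δ d.z = d.r * d.z - d.t * d.z + (49 / 16 * d.nab 2 d.j - 7 / 2 * d.nab 2 d.c) ∧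
  d.δ d.t = d.r / 2 * d.t - d.t ^ 2 + 5 / 7 * d.z - 7 / 2 * d.Δ

/-- KAP: `κ` is a small function -/
def T_KAP : Prop := ∀ (k K : Type) [Field k] [IsAlgClosed k] [CharZero k] [Field K] [Algebra k K]
  [Algebra.EssFiniteType k K], Algebra.trdeg k K = 1 →
  ∀ (d : Dat k K) (S : Finset (DV k K)), d.δ ≠ 0 → d.Ok → d.Sml S →
  Sm (NN d.δ S d.R) 4 d.κ

/-- BT: the case of a small function `t` -/
def T_BT : Prop := ∀ (k K : Type) [Field k] [IsAlgClosed k] [CharZero k] [Field K] [Algebra k K]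
  [Algebra.EssFiniteType k K], Algebra.trdeg k K = 1 →
  ∀ (d : Dat k K) (S : Finset (DV k K)), d.δ ≠ 0 → d.Ok → d.Sml S →
  Sm (NN d.δ S d.R) 4 d.κ → {v | NN d.δ S d.R v ≠ 0}.Finite →
  dg k (d.x ^ 2 / d.y ^ 2) ≤ 2 * dg k d.t + 4 * ∑ᶠ v, NN d.δ S d.R v

/-! ### The trichotomy -/

end Pool.Agent.H92.FQ

namespace Pool.Agent.H92.FQ.Dat

open SC Pool.Agent.H27.LV Polynomial

variable {k K : Type} [Field k] [Field K] [Algebra k K] (d : Dat k K)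

/-- `a T² - a' T + κ` -/
noncomputable def PE : K[X] := C d.a * X ^ 2 - C (d.nab 2 d.a) * X + C d.κ

noncomputable def PC2 : K[X] :=
  C (180 / 7) * X ^ 2 + C (16 * (81 / 49 * (7 / 2 * d.Δ) - 18 / 7 * d.a₁))

noncomputable def PC1 : K[X] :=
  C (504 * d.Δ + 960 / 7 * d.a₁) * X ^ 2 + C (39 / 2 * d.nab 2 d.j) * X +
    C (16 * (9 * d.Δ * d.a₁ - d.φ ^ 2 - d.a₁ ^ 2))

noncomputable def PC0 : K[X] :=
  C (-24 * (7 * d.j - 3 * d.c)) * X ^ 4 + C (-21 * d.nab 2 d.j) * X ^ 3 +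
    C (16 * (d.φ ^ 2 + d.a₁ ^ 2 - 21 * d.a₁ * d.Δ) - 1764 * d.Δ ^ 2) * X ^ 2 +
    C (-(147 / 2) * d.Δ * d.nab 2 d.j) * X +
    C (56 * d.Δ * (d.φ ^ 2 + d.a₁ ^ 2) - 49 / 64 * d.nab 2 d.j ^ 2)

/-- coefficient of `z` in `F` modulo the conic -/
noncomputable def PA1 : K[X] :=
  C (-(1296 / 49)) * (C (100 / 49 * d.a ^ 2) + d.PE) - C (10 / 7 * d.a) * d.PC2 + d.PC1

/-- constant coefficient of `F` modulo the conic -/
noncomputable def PA0 : K[X] :=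
  C (12960 / 343 * d.a) * d.PE + d.PC2 * d.PE + d.PC0

end Pool.Agent.H92.FQ.Dat

namespace Pool.Agent.H92.FQ

open SC Pool.Agent.H27.LV Polynomial

/-- FMC: `F` modulo the conic, and degrees -/
def T_FMC : Prop := ∀ (k K : Type) [Field k] [CharZero k] [Field K] [Algebra k K]
  (d : Dat k K), d.Ok → d.PA1.eval d.t * d.z + d.PA0.eval d.t = 0 ∧
  d.z ^ 2 + 10 / 7 * d.a * d.z = d.PE.eval d.t ∧
  d.PE.natDegree ≤ 2 ∧ d.PA1.natDegree ≤ 2 ∧ d.PA0.natDegree ≤ 3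

/-- NRM: either `F` is a multiple of the conic or the conic splits -/
def T_NRM : Prop := ∀ (k K : Type) [Field k] [CharZero k] [Field K] [Algebra k K]
  (d : Dat k K) (N : DV k K → ℤ), (∀ v, 0 ≤ N v) → d.Ok → Sm N 2 d.j → Sm N 2 d.c →
  Sm N 2 d.R → Sm N 3 (d.nab 2 d.j) → Sm N 3 (d.nab 2 d.c) → Sm N 4 d.κ → Free N d.t →
  (d.PA1 = 0 ∧ d.PA0 = 0) ∨
  ∃ l n : K, Sm N 1 l ∧ Sm N 2 n ∧ l ^ 2 = d.a ∧ d.z = l * d.t + n

/-- T3: `F` is a multiple of the conic -/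
def T_T3 : Prop := ∀ (k K : Type) [Field k] [CharZero k] [Field K] [Algebra k K]
  (d : Dat k K), d.Ok → d.PA1 = 0 → d.PA0 = 0 →
  d.nab 2 d.j = 0 ∧ 63 * d.j = 47 * d.c ∧ 49 * d.c ^ 2 = -81 * d.φ ^ 2 ∧
  21 * d.κ = 64 * d.φ ^ 2

/-- SQP: the conic splits: an identity of polynomials -/
def T_SQP : Prop := ∀ (k K : Type) [Field k] [CharZero k] [Field K] [Algebra k K]
  (d : Dat k K) (N : DV k K → ℤ) (l n : K), (∀ v, 0 ≤ N v) → d.Ok → Sm N 2 d.j → Sm N 2 d.c →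
  Sm N 2 d.R → Sm N 3 (d.nab 2 d.j) → Free N d.t → Sm N 1 l → Sm N 2 n →
  d.z = l * d.t + n →
  C 16 * (X ^ 2 - C l * X + C (7 / 2 * d.Δ - n)) *
    (C (d.φ ^ 2) + (C (-3) * X ^ 2 + C (9 / 7 * l) * X + C (9 / 7 * n + d.a₁)) ^ 2) =
  (C 12 * X ^ 3 - C (78 / 7 * l) * X ^ 2 + C (42 * d.Δ - 78 / 7 * n) * X +
    C (7 / 8 * d.nab 2 d.j)) ^ 2

/-- SQF: the perfect squares -/
def T_SQF : Prop := ∀ (K : Type) [Field K] [CharZero K] (i l M A G₁ G₀ φ : K), i ^ 2 = -1 →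
  φ ≠ 0 →
  C 16 * (X ^ 2 - C l * X + C M) *
    (C (φ ^ 2) + (C (-3) * X ^ 2 + C (9 / 7 * l) * X + C A) ^ 2) =
  (C 12 * X ^ 3 - C (78 / 7 * l) * X ^ 2 + C G₁ * X + C G₀ : K[X]) ^ 2 →
  l = 0 ∧ G₀ = 0 ∧ G₁ = 12 * M ∧ ∃ ν : K, ν ^ 2 = -1 ∧ A = -3 * M - ν * φ ∧ 3 * M = -2 * ν * φ

/-- T2: the conic splits -/
def T_T2 : Prop := ∀ (k K : Type) [Field k] [IsAlgClosed k] [CharZero k] [Field K] [Algebra k K]
  (d : Dat k K) (N : DV k K → ℤ) (l n : K), (∀ v, 0 ≤ N v) → d.Ok → Sm N 2 d.j → Sm N 2 d.c →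
  Sm N 2 d.R → Sm N 3 (d.nab 2 d.j) → Free N d.t → Sm N 1 l → Sm N 2 n → l ^ 2 = d.a →
  d.z = l * d.t + n →
  d.z = 0 ∧ 7 * d.j = 3 * d.c ∧ 9 * d.c ^ 2 = -d.φ ^ 2 ∧ d.nab 2 d.j = 0 ∧ d.m ≠ 0

/-! ### The end of the proof -/

/-- RIC: `R` is constant or `u` is small -/
def T_RIC : Prop := ∀ (k K : Type) [Field k] [IsAlgClosed k] [CharZero k] [Field K] [Algebra k K]
  [Algebra.EssFiniteType k K], Algebra.trdeg k K = 1 →
  ∀ (δ : Derivation k K K) (u φ r : K) (κ : k), δ u = u → u ≠ 0 → φ ≠ 0 → κ ≠ 0 →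
  δ φ = r * φ → δ r = 8 * algebraMap k K κ * φ - 1 + r ^ 2 / 4 →
  (∀ v : DV k K, v.ord u ≠ 0 → ge v 0 φ) →
  8 * algebraMap k K κ * φ = 1 ∨ dg k u ≤ 2 * dg k φ

/-- F2: the exceptional quartics -/
def T_F2 : Prop := ∀ (k K : Type) [Field k] [IsAlgClosed k] [CharZero k] [Field K] [Algebra k K]
  (d : Dat k K) (u : K), d.Ok → (∀ f : K, d.δ f = 0 → f ∈ Set.range (algebraMap k K)) →
  d.x ^ 4 + d.y ^ 4 = 1 + u → d.δ u = u → u ≠ 0 → d.r = 0 → d.z = 0 → 7 * d.j = 3 * d.c →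
  8 * d.c = 1 → 9 * d.c ^ 2 = -d.φ ^ 2 → d.m ≠ 0 →
  ∃ θ : k, θ ^ 4 = -1 ∧
    (d.x + algebraMap k K θ * d.y) * (d.x - algebraMap k K θ * d.y) ^ 3 = 2

/-- F3: the exceptional octics -/
def T_F3 : Prop := ∀ (k K : Type) [Field k] [IsAlgClosed k] [CharZero k] [Field K] [Algebra k K]
  (d : Dat k K) (u : K), d.Ok → (∀ f : K, d.δ f = 0 → f ∈ Set.range (algebraMap k K)) →
  d.x ^ 4 + d.y ^ 4 = 1 + u → d.δ u = u → u ≠ 0 → d.r = 0 → 63 * d.j = 47 * d.c →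
  8 * d.c = 1 → 49 * d.c ^ 2 = -81 * d.φ ^ 2 → 21 * d.κ = 64 * d.φ ^ 2 →
  ∃ θ : k, θ ^ 4 = -1 ∧ (d.x - algebraMap k K θ * d.y) ^ 8 + 108 * u = 0

/-- R0: the case `R = 0` -/
def T_R0 : Prop := ∀ (k K : Type) [Field k] [IsAlgClosed k] [CharZero k] [Field K] [Algebra k K]
  [Algebra.EssFiniteType k K], Algebra.trdeg k K = 1 →
  ∀ (δ : Derivation k K K) (S : Finset (DV k K)) (x y u : K), Sit δ S x y u → RR δ x y = 0 →
  x ^ 4 = 1 ∨ y ^ 4 = 1 ∨ 3 * dg k u ≤ 4 * chi δ S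

/-- MAIN: the case of a nonconstant `u` and `x y ≠ 0` -/
def T_MAIN : Prop := ∀ (k K : Type) [Field k] [IsAlgClosed k] [CharZero k] [Field K] [Algebra k K]
  [Algebra.EssFiniteType k K], Algebra.trdeg k K = 1 →
  ∀ (δ : Derivation k K K) (S : Finset (DV k K)) (x y u : K), Sit δ S x y u →
  x ^ 4 = 1 ∨ y ^ 4 = 1 ∨
  (∃ θ : k, θ ^ 4 = -1 ∧ (x + algebraMap k K θ * y) * (x - algebraMap k K θ * y) ^ 3 = 2) ∨
  (∃ θ : k, θ ^ 4 = -1 ∧ (x - algebraMap k K θ * y) ^ 8 + 108 * u = 0) ∨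
  dg k u ≤ 626 * chi δ S

end Pool.Agent.H92.FQ
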